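import Pool.Agent.Q293.TreeProb

/-!
# Directed polymer on the null recurrent biased walk on Galton–Watson trees

`Q293.TreeWalk.treeLaw p` is the law of independent numbers `N v` with law `p`, one for every
finite word `v`, and `Q293.TreeWalk.InTree N` is the set of words of the Galton–Watson tree they
define (the child `i` of `v` is `i :: v`, it is there when `v` is there and `i < N v`).
`Q293.TreeWalk.step m hm N` is one step of the `m`-biased walk on that tree,
`Q293.Polymer.W P ν β ω n x` the normalised partition function of the polymer driven by the chain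
`P` started at `x` with environment `ω`, whose law is `Q293.Polymer.env`, the product of copies
of `ν`.
-/

set_option autoImplicit false

open MeasureTheory Filter Topology

namespace Pool.Agent.Results.MP_8c378f_pr.StrongDisorder

open Q293.Polymer Q293.TreeWalk

/-- the limit of the partition functions -/
noncomputable def Winf {V : Type} (P : V → PMF V) (ν : Measure ℝ) (x : V) (β : ℝ)
    (ω : ℕ → V → ℝ) : ENNReal := liminf (fun n => W P ν β ω n x) atTop

/-- weak disorder at `β` -/
def WeakDisorder {V : Type} (P : V → PMF V) (ν : Measure ℝ) (x : V) (β : ℝ) : Prop :=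
  ∀ᵐ ω ∂(env V ν), 0 < Winf P ν x β ω

/-- critical inverse temperature -/
noncomputable def betaC {V : Type} (P : V → PMF V) (ν : Measure ℝ) (x : V) : ℝ :=
  sSup {β : ℝ | 0 ≤ β ∧ WeakDisorder P ν x β}

/-- For every offspring law with finite mean `m > 0` (in particular for every `m > 1`) and almost
every infinite Galton–Watson tree the partition functions of the polymer driven by the `m`-biased
walk tend to zero almost surely at every `β > 0`, so that the critical inverse temperature
vanishes. -/
theorem result (p : PMF ℕ) (m : ℝ) (hm : 0 < m)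
    (hmean : ∑' k : ℕ, p k * (k : ENNReal) = ENNReal.ofReal m)
    (ν : Measure ℝ) [IsProbabilityMeasure ν]
    (hexp : ∀ s : ℝ, Integrable (fun t => Real.exp (s * t)) ν)
    (hnc : ∀ c : ℝ, ¬ ∀ᵐ t ∂ν, t = c) :
    ∀ᵐ N ∂(treeLaw p), {v : List ℕ | InTree N v}.Infinite →
      (∀ β : ℝ, 0 < β → ∀ᵐ ω ∂(env (List ℕ) ν),
        Tendsto (fun n => W (step m hm N) ν β ω n []) atTop (𝓝 0)) ∧
      betaC (step m hm N) ν [] = 0 := by
  have hν : Q293.PolyTilt.EnvLaw ν := ⟨inferInstance, hexp, hnc⟩
  filter_upwards [ae_volume p m hm hmean] with N hN hinf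
  obtain ⟨K, hK, hA⟩ := hN
  have hchain := retHyp hm (root_pos N hinf) K hK hA
  have h1 : ∀ β : ℝ, 0 < β → ∀ᵐ ω ∂(env (List ℕ) ν),
      Tendsto (fun n => W (step m hm N) ν β ω n []) atTop (𝓝 0) :=
    fun β hβ => Q293.PolyTilt.W_tendsto_zero hchain hν β hβ
  refine ⟨h1, ?_⟩
  have hprob : IsProbabilityMeasure (env (List ℕ) ν) := Q293.PolyTilt.prob_env hν
  have hset : {β : ℝ | 0 ≤ β ∧ WeakDisorder (step m hm N) ν [] β} = {0} := by
    ext β
    simp only [Set.mem_ofPred_eq, Set.mem_singleton_iff]
    constructor
    · rintro ⟨h0, h2⟩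
      by_contra hne
      have hβ : 0 < β := lt_of_le_of_ne h0 (Ne.symm hne)
      have h3 : ∀ᵐ _ω ∂(env (List ℕ) ν), False := by
        filter_upwards [h1 β hβ, h2] with ω h4 h5
        unfold Winf at h5
        rw [h4.liminf_eq] at h5
        exact lt_irrefl _ h5
      rw [ae_iff] at h3
      simp at h3
    · rintro rfl
      refine ⟨le_refl _, ?_⟩
      apply Filter.Eventually.of_forall
      intro ω
      have h4 : ∀ n : ℕ, W (step m hm N) ν 0 ω n [] = 1 := by
        intro n
        unfold W Z Lam
        simp only [zero_mul, Real.exp_zero, ENNReal.ofReal_one, mul_one]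
        rw [PMF.tsum_coe]
        simp
      unfold Winf
      simp only [h4, liminf_const]
      exact one_pos
  unfold betaC
  rw [hset, csSup_singleton]

end Pool.Agent.Results.MP_8c378f_pr.StrongDisorder
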